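import Pool.Agent.H500.ME.Stm
import Pool.Agent.H199.ED.FXC

/-!
# Part B5 of project ME (helper571 for helper500): inertia elements in a subgroup
-/

set_option autoImplicit false
set_option linter.unusedSectionVars false

namespace Pool.Agent.H571.ME.INL

open NumberField IsDedekindDomain
open Pool.Agent.H199.ED.FXC (exists_lift exists_w up up_max up_smul)

theorem main : Pool.Agent.H500.ME.S_INL := by
  intro K _ _ U L _ _ _ ι e _ hfx v τ hτ hτU
  obtain ⟨Q, hQm, hQv, hQ⟩ := hτ
  obtain ⟨s, hs⟩ := exists_lift hfx hτU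
  obtain ⟨w, hw, hQw⟩ := exists_w hfx hQm hQv
  refine ⟨w, s, hw, ⟨Q.comap (up e), up_max e hQm, hQw, fun x => ?_⟩, hs⟩
  rw [Ideal.mem_comap, map_sub, up_smul hfx, hs]
  exact hQ _

end Pool.Agent.H571.ME.INL
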